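import Mathlib

set_option autoImplicit false

/-!
# Asymmetric supersaturation fails for Rado families of linear systems

Two single equations in two unknowns, `x = 2 y` (colour `0`) and `x = 2 y + 2` (colour `1`). Every
2-colouring of `{1, …, 12}` has a solution of the first equation in colour `0` or a solution of the
second one in colour `1`, but the colouring of `n` by the parity of `⌊log₂ n⌋` has no solution of
the first equation in either colour and at most one solution of the second equation for every power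
of two.
-/

namespace Pool.Agent.Results.MP_9bc523_co.SupersaturationFails

/-- A system of linear equations `M x = c` with an integer `l × k` matrix `M`. -/
structure LinSys where
  /-- number of equations -/
  l : ℕ
  /-- number of unknowns -/
  k : ℕ
  /-- the underlying matrix -/
  M : Matrix (Fin l) (Fin k) ℤ
  /-- the right-hand side -/
  c : Fin l → ℤ

/-- The homogeneous system `M x = 0` with the same underlying matrix. -/
def LinSys.hom (A : LinSys) : LinSys := ⟨A.l, A.k, A.M, 0⟩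

/-- `x` is a `k`-distinct solution of `A` in `S`: all entries are in `S`, they are pairwise distinct,
and `M x = c`. -/
def LinSys.IsSol (A : LinSys) (S : Set ℕ) (x : Fin A.k → ℕ) : Prop :=
  (∀ j, x j ∈ S) ∧ Function.Injective x ∧ A.M.mulVec (fun j => (x j : ℤ)) = A.c

/-- The underlying matrix has full rank `l`. -/
def LinSys.FullRank (A : LinSys) : Prop := (A.M.map (Int.cast : ℤ → ℚ)).rank = A.l

/-- `A` is irredundant: it has a `k`-distinct solution in the positive integers. -/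
def LinSys.Irredundant (A : LinSys) : Prop := ∃ x : Fin A.k → ℕ, A.IsSol {n | 0 < n} x

/-- `S` is `(A_1, …, A_r)`-Rado: for every `r`-colouring some `A i` has a `k`-distinct solution in
`S` all of whose entries have colour `i`. -/
def IsRado {r : ℕ} (A : Fin r → LinSys) (S : Set ℕ) : Prop :=
  ∀ χ : ℕ → Fin r, ∃ i, ∃ x : Fin (A i).k → ℕ, (A i).IsSol S x ∧ ∀ j, χ (x j) = i

/-- The number of `k`-distinct solutions of `A i` in `{1, …, n}` all of whose entries have
colour `i`. -/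
noncomputable def numSol {r : ℕ} (A : Fin r → LinSys) (n : ℕ) (χ : ℕ → Fin r) (i : Fin r) : ℕ :=
  Set.ncard {x : Fin (A i).k → ℕ | (A i).IsSol (Set.Icc 1 n) x ∧ ∀ j, χ (x j) = i}

/-- The single equation `x - 2 y = b`. -/
def dbl (b : ℤ) : LinSys := ⟨1, 2, !![1, -2], ![b]⟩

lemma dbl_isSol (b : ℤ) (S : Set ℕ) (x : Fin 2 → ℕ) :
    (dbl b).IsSol S x ↔ x 0 ∈ S ∧ x 1 ∈ S ∧ x 0 ≠ x 1 ∧ (x 0 : ℤ) - 2 * x 1 = b := by
  unfold LinSys.IsSol dbl
  constructor
  · rintro ⟨h1, h2, h3⟩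
    refine ⟨h1 0, h1 1, fun h => ?_, ?_⟩
    · have : (0 : Fin 2) = 1 := h2 h
      exact absurd this (by decide)
    · have := congrFun h3 0
      simp [Matrix.mulVec, dotProduct, Fin.sum_univ_two] at this
      linarith
  · rintro ⟨h1, h2, h3, h4⟩
    refine ⟨?_, ?_, ?_⟩
    · intro j
      fin_cases j
      · exact h1
      · exact h2
    · intro i j hij
      fin_cases i <;> fin_cases j
      · rfl
      · exact absurd hij h3
      · exact absurd hij.symm h3
      · rfl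
    · funext i
      fin_cases i
      simp [Matrix.mulVec, dotProduct, Fin.sum_univ_two]
      linarith

lemma dbl_fullRank (b : ℤ) : (dbl b).FullRank := by
  unfold LinSys.FullRank dbl
  show (Matrix.map (!![(1 : ℤ), -2] : Matrix (Fin 1) (Fin 2) ℤ) (Int.cast : ℤ → ℚ)).rank = 1
  have hli : LinearIndependent ℚ
      (Matrix.map (!![(1 : ℤ), -2] : Matrix (Fin 1) (Fin 2) ℤ) (Int.cast : ℤ → ℚ)).row := by
    rw [linearIndependent_unique_iff]
    intro h
    have := congrFun h 0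
    simp [Matrix.row] at this
  rw [hli.rank_matrix]
  rfl

lemma dbl_irr (b : ℕ) : (dbl b).Irredundant := by
  refine ⟨![b + 2, 1], ?_⟩
  show (dbl b).IsSol {n | 0 < n} (![b + 2, 1] : Fin 2 → ℕ)
  rw [dbl_isSol]
  refine ⟨?_, ?_, ?_, ?_⟩
  · show 0 < b + 2
    omega
  · show 0 < 1
    omega
  · show b + 2 ≠ 1
    omega
  · show ((b + 2 : ℕ) : ℤ) - 2 * ((1 : ℕ) : ℤ) = b
    push_cast
    ring

lemma dbl_hom (b : ℤ) : (dbl b).hom = dbl 0 := by
  unfold LinSys.hom dbl
  congr 1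
  funext i
  fin_cases i
  rfl

/-- The two systems: `x = 2 y` for colour `0` and `x = 2 y + 2` for colour `1`. -/
def pair : Fin 2 → LinSys := ![dbl 0, dbl 2]

lemma pair_rado : IsRado pair (Set.Icc 1 12) := by
  intro χ
  by_contra hcon
  push Not at hcon
  have h0 : ∀ y z : ℕ, 1 ≤ y → z = 2 * y → z ≤ 12 → ¬ (χ y = 0 ∧ χ z = 0) := by
    rintro y z hy1 rfl hy2 ⟨e1, e2⟩
    obtain ⟨j, hj⟩ := hcon 0 (![2 * y, y] : Fin 2 → ℕ) ((dbl_isSol 0 _ _).2
      ⟨⟨by show 1 ≤ 2 * y; omega, hy2⟩, ⟨hy1, by show y ≤ 12; omega⟩, by show 2 * y ≠ y; omega,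
        by show ((2 * y : ℕ) : ℤ) - 2 * ((y : ℕ) : ℤ) = 0; push_cast; ring⟩)
    have : ∀ j : Fin 2, χ ((![2 * y, y] : Fin 2 → ℕ) j) = 0 := by
      intro j
      fin_cases j
      · exact e2
      · exact e1
    exact hj (this j)
  have h1 : ∀ y z : ℕ, 1 ≤ y → z = 2 * y + 2 → z ≤ 12 → ¬ (χ y = 1 ∧ χ z = 1) := by
    rintro y z hy1 rfl hy2 ⟨e1, e2⟩
    obtain ⟨j, hj⟩ := hcon 1 (![2 * y + 2, y] : Fin 2 → ℕ) ((dbl_isSol 2 _ _).2
      ⟨⟨by show 1 ≤ 2 * y + 2; omega, hy2⟩, ⟨hy1, by show y ≤ 12; omega⟩,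
        by show 2 * y + 2 ≠ y; omega,
        by show ((2 * y + 2 : ℕ) : ℤ) - 2 * ((y : ℕ) : ℤ) = 2; push_cast; ring⟩)
    have : ∀ j : Fin 2, χ ((![2 * y + 2, y] : Fin 2 → ℕ) j) = 1 := by
      intro j
      fin_cases j
      · exact e2
      · exact e1
    exact hj (this j)
  have n0 : ∀ y : ℕ, χ y ≠ 0 → χ y = 1 := by
    intro y
    have : ∀ t : Fin 2, t ≠ 0 → t = 1 := by decide
    exact this (χ y)
  have n1 : ∀ y : ℕ, χ y ≠ 1 → χ y = 0 := by
    intro y
    have : ∀ t : Fin 2, t ≠ 1 → t = 0 := by decide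
    exact this (χ y)
  have c2 : χ 2 = 1 := by
    apply n0
    intro e
    have c1 : χ 1 = 1 := n0 1 (fun e' => h0 1 2 (by norm_num) rfl (by norm_num) ⟨e', e⟩)
    have c4 : χ 4 = 1 := n0 4 (fun e' => h0 2 4 (by norm_num) rfl (by norm_num) ⟨e, e'⟩)
    exact h1 1 4 (by norm_num) rfl (by norm_num) ⟨c1, c4⟩
  have c6 : χ 6 = 0 := n1 6 (fun e' => h1 2 6 (by norm_num) rfl (by norm_num) ⟨c2, e'⟩)
  have c3 : χ 3 = 1 := n0 3 (fun e' => h0 3 6 (by norm_num) rfl (by norm_num) ⟨e', c6⟩)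
  have c12 : χ 12 = 1 := n0 12 (fun e' => h0 6 12 (by norm_num) rfl (by norm_num) ⟨c6, e'⟩)
  have c8 : χ 8 = 0 := n1 8 (fun e' => h1 3 8 (by norm_num) rfl (by norm_num) ⟨c3, e'⟩)
  have c4 : χ 4 = 1 := n0 4 (fun e' => h0 4 8 (by norm_num) rfl (by norm_num) ⟨e', c8⟩)
  have c5 : χ 5 = 0 := n1 5 (fun e' => h1 5 12 (by norm_num) rfl (by norm_num) ⟨e', c12⟩)
  have c10 : χ 10 = 1 := n0 10 (fun e' => h0 5 10 (by norm_num) rfl (by norm_num) ⟨c5, e'⟩)
  exact h1 4 10 (by norm_num) rfl (by norm_num) ⟨c4, c10⟩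

/-- The colouring by the parity of `⌊log₂ n⌋`. -/
def lg (n : ℕ) : Fin 2 := ⟨Nat.log 2 n % 2, Nat.mod_lt _ (by norm_num)⟩

lemma numSol_zero (n : ℕ) : numSol pair n lg 0 = 0 := by
  unfold numSol
  have : {x : Fin (pair 0).k → ℕ | (pair 0).IsSol (Set.Icc 1 n) x ∧ ∀ j, lg (x j) = 0} = ∅ := by
    apply Set.eq_empty_of_forall_notMem
    rintro x ⟨hx, hc⟩
    change Fin 2 → ℕ at x
    obtain ⟨h0, h1, h2, h3⟩ := (dbl_isSol 0 _ x).1 hx
    have e : x (0 : Fin 2) = 2 * x (1 : Fin 2) := by omega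
    have hpos : x (1 : Fin 2) ≠ 0 := by
      have := h1.1
      omega
    have e2 : Nat.log 2 (x (0 : Fin 2)) = Nat.log 2 (x (1 : Fin 2)) + 1 := by
      rw [e, mul_comm, Nat.log_mul_base (by norm_num) hpos]
    have hc' : ∀ j : Fin 2, lg (x j) = 0 := hc
    have c0 : lg (x (0 : Fin 2)) = 0 := hc' 0
    have c1 : lg (x (1 : Fin 2)) = 0 := hc' 1
    have c0' := congrArg Fin.val c0
    have c1' := congrArg Fin.val c1
    simp only [lg, Fin.val_zero] at c0' c1'
    omega
  rw [this, Set.ncard_empty]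

lemma numSol_one (n : ℕ) : numSol pair n lg 1 ≤ Nat.log 2 n + 1 := by
  classical
  unfold numSol
  set T : Set (Fin (pair 1).k → ℕ) :=
    {x : Fin (pair 1).k → ℕ | (pair 1).IsSol (Set.Icc 1 n) x ∧ ∀ j, lg (x j) = 1} with hT
  have key : ∀ x ∈ T, ∃ j : ℕ, j < Nat.log 2 n + 1 ∧
      x = (![2 ^ (j + 2), 2 ^ (j + 1) - 1] : Fin 2 → ℕ) := by
    rintro x ⟨hx, hc⟩
    change Fin 2 → ℕ at x
    obtain ⟨h0, h1, h2, h3⟩ := (dbl_isSol 2 _ x).1 hx
    have e : x (0 : Fin 2) = 2 * x (1 : Fin 2) + 2 := by omega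
    have hpos : 1 ≤ x (1 : Fin 2) := h1.1
    have hc' : ∀ j : Fin 2, lg (x j) = 1 := hc
    have c0 : lg (x (0 : Fin 2)) = 1 := hc' 0
    have c1 : lg (x (1 : Fin 2)) = 1 := hc' 1
    have c0' := congrArg Fin.val c0
    have c1' := congrArg Fin.val c1
    simp only [lg, Fin.val_one] at c0' c1'
    set y := x (1 : Fin 2) with hy
    set j := Nat.log 2 y with hj
    have hlow : 2 ^ j ≤ y := Nat.pow_log_le_self 2 (by omega)
    have hup : y < 2 ^ (j + 1) := Nat.lt_pow_succ_log_self (by norm_num) y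
    have hyj : y = 2 ^ (j + 1) - 1 := by
      by_contra hne
      have hlt : 2 * y + 2 < 2 ^ (j + 2) := by
        have : 2 ^ (j + 2) = 2 * 2 ^ (j + 1) := by ring
        omega
      have hge : 2 ^ (j + 1) ≤ 2 * y + 2 := by
        have : 2 ^ (j + 1) = 2 * 2 ^ j := by ring
        omega
      have hlog : Nat.log 2 (x (0 : Fin 2)) = j + 1 := by
        rw [e]
        exact Nat.log_eq_of_pow_le_of_lt_pow hge hlt
      omega
    refine ⟨j, ?_, ?_⟩
    · have : y ≤ n := h1.2
      have := Nat.log_mono_right (b := 2) this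
      omega
    · funext i
      fin_cases i
      · show x (0 : Fin 2) = 2 ^ (j + 2)
        rw [e, hyj]
        have h5 : 2 ^ (j + 2) = 2 * 2 ^ (j + 1) := by ring
        have h6 : 0 < 2 ^ (j + 1) := by positivity
        omega
      · exact hyj
  have hsub : T ⊆ (fun j : ℕ => (![2 ^ (j + 2), 2 ^ (j + 1) - 1] : Fin 2 → ℕ)) ''
      (↑(Finset.range (Nat.log 2 n + 1)) : Set ℕ) := by
    intro x hx
    obtain ⟨j, hj, e⟩ := key x hx
    exact ⟨j, by simpa using hj, e.symm⟩
  calc T.ncard ≤ ((fun j : ℕ => (![2 ^ (j + 2), 2 ^ (j + 1) - 1] : Fin 2 → ℕ)) ''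
      (↑(Finset.range (Nat.log 2 n + 1)) : Set ℕ)).ncard :=
        Set.ncard_le_ncard hsub ((Finset.finite_toSet _).image _)
    _ ≤ (↑(Finset.range (Nat.log 2 n + 1)) : Set ℕ).ncard :=
        Set.ncard_image_le (Finset.finite_toSet _)
    _ = Nat.log 2 n + 1 := by
        rw [Set.ncard_coe_finset, Finset.card_range]

lemma log_small (c : ℝ) (hc : 0 < c) (n₀ : ℕ) :
    ∃ n : ℕ, n₀ < n ∧ ((Nat.log 2 n + 1 : ℕ) : ℝ) < c * n := by
  have h1 : Filter.Tendsto (fun n : ℕ => (n : ℝ) * (1 / 2 : ℝ) ^ n) Filter.atTop (nhds 0) := by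
    have := tendsto_pow_const_mul_const_pow_of_abs_lt_one 1 (r := (1 / 2 : ℝ))
      (by rw [abs_of_pos] <;> norm_num)
    simpa using this
  have h2 : Filter.Tendsto (fun n : ℕ => (1 / 2 : ℝ) ^ n) Filter.atTop (nhds 0) :=
    tendsto_pow_atTop_nhds_zero_of_lt_one (by norm_num) (by norm_num)
  have h3 := h1.add h2
  rw [add_zero] at h3
  have h4 := (h3.eventually (gt_mem_nhds hc)).and (Filter.eventually_ge_atTop (n₀ + 1))
  obtain ⟨m, hm, hmn⟩ := h4.exists
  refine ⟨2 ^ m, ?_, ?_⟩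
  · calc n₀ < m := by omega
      _ < 2 ^ m := Nat.lt_two_pow_self
  · rw [Nat.log_pow (by norm_num)]
    push_cast
    have hp : (0 : ℝ) < 2 ^ m := by positivity
    have e : ((m : ℝ) * (1 / 2) ^ m + (1 / 2) ^ m) * 2 ^ m = m + 1 := by
      have : ((1 : ℝ) / 2) ^ m * 2 ^ m = 1 := by
        rw [← mul_pow]
        norm_num
      linear_combination ((m : ℝ) + 1) * this
    rw [← e]
    exact mul_lt_mul_of_pos_right hm hp

/-- The supersaturation statement is false. For the two equations `x - 2 y = 0` (colour `0`) and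
`x - 2 y = 2` (colour `1`), all hypotheses are satisfied, already `{1, …, 12}` is Rado for the pair,
but for every `n` the colouring `lg` of `{1, …, n}` by the parity of `⌊log₂⌋` has no solution of the
first equation in colour `0` and at most `⌊log₂ n⌋ + 1` solutions of the second one in colour `1`.
Hence for every `c > 0` and every `n₀` there are `n > n₀` and a colouring of `{1, …, n}` such that
for each `i` fewer than `c n ^ (k i - l i)` solutions of the `i`-th system lie in colour `i`. -/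
theorem result :
    (∀ i, (pair i).FullRank ∧ (pair i).Irredundant ∧ (pair i).hom.Irredundant) ∧
    IsRado pair (Set.Icc 1 12) ∧ IsRado pair {n | 0 < n} ∧
    (∀ n, numSol pair n lg 0 = 0 ∧ numSol pair n lg 1 ≤ Nat.log 2 n + 1) ∧
    ∀ c : ℝ, 0 < c → ∀ n₀ : ℕ, ∃ n : ℕ, n₀ < n ∧ ∃ χ : ℕ → Fin 2,
      ∀ i, (numSol pair n χ i : ℝ) < c * (n : ℝ) ^ ((pair i).k - (pair i).l) := by
  have hirr0 : (dbl 0).Irredundant := dbl_irr 0
  have hirr2 : (dbl 2).Irredundant := dbl_irr 2
  refine ⟨?_, pair_rado, ?_, fun n => ⟨numSol_zero n, numSol_one n⟩, ?_⟩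
  · intro i
    fin_cases i
    · refine ⟨dbl_fullRank 0, hirr0, ?_⟩
      show (dbl 0).hom.Irredundant
      rw [dbl_hom]
      exact hirr0
    · refine ⟨dbl_fullRank 2, hirr2, ?_⟩
      show (dbl 2).hom.Irredundant
      rw [dbl_hom]
      exact hirr0
  · intro χ
    obtain ⟨i, x, hx, hc⟩ := pair_rado χ
    exact ⟨i, x, ⟨fun j => (hx.1 j).1, hx.2⟩, hc⟩
  · intro c hc n₀
    obtain ⟨n, hn, hlt⟩ := log_small c hc n₀
    refine ⟨n, hn, lg, ?_⟩
    have hnpos : (0 : ℝ) < n := by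
      have : 0 < n := by omega
      exact_mod_cast this
    have hexp : ∀ i : Fin 2, (pair i).k - (pair i).l = 1 := by
      intro i
      fin_cases i <;> rfl
    intro i
    rw [hexp i, pow_one]
    fin_cases i
    · show (numSol pair n lg 0 : ℝ) < c * n
      rw [numSol_zero]
      push_cast
      positivity
    · show (numSol pair n lg 1 : ℝ) < c * n
      exact lt_of_le_of_lt (by exact_mod_cast numSol_one n) hlt

end Pool.Agent.Results.MP_9bc523_co.SupersaturationFails
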